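import Pool.Agent.H247.CB.Stm
import Pool.Agent.H247.FG.Cre
import Pool.Graph.R_seed8.Y504.CO.KSG

/-!
# Project CB: diffeomorphisms
-/

set_option autoImplicit false
set_option linter.unusedSectionVars false

open scoped Manifold ContDiff Topology
open Filter Set Metric

universe u

namespace Pool.Agent.H247.CB.Dif

open Pool.Agent.H718R2.G Pool.Agent.TH80.OMS Pool.Agent.Y504.CO Pool.Agent.Y504.CO.F2c

theorem noBdd_of_pow {n : ℕ} {A : V n →L[ℝ] V n} {l : ℕ} (h : NoBdd (fun _ => A ^ l)) :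
    NoBdd (fun _ => A) := by
  rintro v ⟨C, hC⟩ hv i
  have hit : ∀ (k : ℕ) (j : ℤ), v (j + k) = (A ^ k) (v j) := by
    intro k
    induction k with
    | zero => intro j; simp
    | succ k ih =>
      intro j
      rw [pow_succ']
      show v (j + (k + 1 : ℕ)) = A ((A ^ k) (v j))
      rw [← ih j, ← hv]
      congr 1
      push_cast
      ring
  have h1 := h (fun j => v (i + l * j)) ⟨C, fun j => hC _⟩ (fun j => by
    show v (i + l * (j + 1)) = (A ^ l) (v (i + l * j))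
    rw [← hit l]
    congr 1
    ring) 0
  simpa using h1

section

variable {n : ℕ} {N : Type u} [TopologicalSpace N] [T2Space N] [CompactSpace N]
  [ChartedSpace (V n) N] [IsManifold (𝓡 n) ∞ N]

theorem hypAt_of_hypK {r : ℕ∞} (hr : 1 ≤ r) (G : DiffM n N r) {q : ℕ} (hq : 1 ≤ q)
    (hG : HypK n q G) {z : N} (hz : G^[q] z = z) : HypAt n G z := by
  obtain ⟨m, hm1, hmz, hmin⟩ := Pool.Agent.H247.FG.Cre.exists_least (show z ∈ Per G from ⟨q, hq, hz⟩)
  refine Pool.Agent.H247.FG.Cre.hypAt_of_least hr G hm1 hmz hmin fun ψ hψ hzψ => ?_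
  have h1 := hG z hz ψ hψ hzψ
  have hdvd : m ∣ q := by
    have h2 : G^[q % m + m * (q / m)] z = z := by rw [Nat.mod_add_div]; exact hz
    rw [Function.iterate_add_apply] at h2
    have h3 : G^[m * (q / m)] z = z := by
      have : Function.IsPeriodicPt G (m * (q / m)) z := Function.IsPeriodicPt.mul_const hmz _
      exact this
    rw [h3] at h2
    rcases Nat.eq_zero_or_pos (q % m) with h0 | h0
    · exact Nat.dvd_of_mod_eq_zero h0
    · exact absurd h2 (hmin _ h0 (Nat.mod_lt _ (by omega)))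
  obtain ⟨l, rfl⟩ := hdvd
  have hd : DifferentiableAt ℝ (fun v => ψ (G^[m] (ψ.symm v))) (ψ z) :=
    (chart_c1 hr G m hψ hzψ (by rw [hmz]; exact hzψ)).differentiableAt (by norm_num)
  rw [fderiv_mul G hzψ hmz hd.hasFDerivAt l] at h1
  exact noBdd_of_pow h1

theorem finite_fix {r : ℕ∞} (hr : 1 ≤ r) (G : DiffM n N r) {q : ℕ} (hG : HypK n q G) :
    {x | G^[q] x = x}.Finite := by
  refine finite_of_good hr G q fun x _ hx => ?_
  refine ⟨chartAt (V n) x, IsManifold.chart_mem_maximalAtlas x, mem_chart_source (V n) x, ?_⟩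
  have h1 := hG x hx (chartAt (V n) x) (IsManifold.chart_mem_maximalAtlas x)
    (mem_chart_source (V n) x)
  set D := fderiv ℝ (fun u => chartAt (V n) x (G^[q] ((chartAt (V n) x).symm u)))
    (chartAt (V n) x x) with hD
  have h2 : ∀ v, D v = v → v = 0 := fun v hv =>
    h1 (fun _ => v) ⟨‖v‖, fun _ => le_rfl⟩ (fun _ => hv.symm) 0
  intro hdet
  have h3 : LinearMap.det ((D - ContinuousLinearMap.id ℝ (V n) : V n →L[ℝ] V n) :
      V n →ₗ[ℝ] V n) = 0 := hdet
  have h4 := LinearMap.bot_lt_ker_of_det_eq_zero h3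
  obtain ⟨v, hv, hv0⟩ := (Submodule.ne_bot_iff _).1 h4.ne'
  apply hv0
  refine h2 v ?_
  have h5 : (D - ContinuousLinearMap.id ℝ (V n)) v = 0 := hv
  have h6 : D v - v = 0 := h5
  exact sub_eq_zero.1 h6

end

section

variable {n : ℕ} {N : Type u} [MetricSpace N] [CompactSpace N]
  [ChartedSpace (V n) N] [IsManifold (𝓡 n) ∞ N]

theorem close (hCI : S_CI.{u}) {r : ℕ∞} (hr : 1 ≤ r) (F : DiffM n N r) {ε : ℝ} (hε : 0 < ε) :
    ∃ U : Set (DiffM n N r), IsOpen[strongTop n N r] U ∧ F ∈ U ∧ ∀ G ∈ U, ∀ x,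
      dist (F x) (G x) < ε := by
  have h1 : ∀ x : N, ∃ W ∈ 𝓝 x, ∃ U : Set (DiffM n N r), IsOpen[strongTop n N r] U ∧ F ∈ U ∧
      ∀ G ∈ U, ∀ y ∈ W, dist (F y) (G y) < ε := by
    intro x
    obtain ⟨W, hW, U, hU, hFU, h⟩ := (hCI n N r hr F 1 x).1 (ball (F x) (ε / 2)) isOpen_ball
      (mem_ball_self (by positivity))
    refine ⟨W, hW, U, hU, hFU, fun G hG y hy => ?_⟩
    have a1 : G y ∈ ball (F x) (ε / 2) := h G hG y hy
    have a2 : F y ∈ ball (F x) (ε / 2) := h F hFU y hy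
    rw [mem_ball] at a1 a2
    have a3 := dist_triangle_right (F y) (G y) (F x)
    linarith
  choose W hW U hU hFU h using h1
  obtain ⟨t, ht⟩ := CompactSpace.elim_nhds_subcover W hW
  refine ⟨⋂ x ∈ t, U x, @isOpen_biInter_finset _ _ (strongTop n N r) t U fun x _ => hU x,
    mem_iInter₂.2 fun x _ => hFU x, fun G hG y => ?_⟩
  have hy : y ∈ ⋃ x ∈ t, W x := by rw [ht]; trivial
  obtain ⟨x, hxt, hyW⟩ := mem_iUnion₂.1 hy
  exact h x G (mem_iInter₂.1 hG x hxt) y hyW

end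

end Pool.Agent.H247.CB.Dif
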