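import Pool.Agent.H247.CB.Main
import Pool.Agent.H407.CB.LA
import Pool.Agent.H179.CB.QF
import Pool.Agent.H457.CB.CN
import Pool.Agent.H484.CB.LOC
import Pool.Agent.H105.CB.IT
import Pool.Agent.H353.CB.FM
import Pool.Agent.H747.CB.PI
import Pool.Agent.H189.CB.ZD
import Pool.Agent.H984.CB.SEP
import Pool.Graph.R_seed8.Y504.CO.DicF
import Pool.Graph.R_pool_sql_team_seeded_35f281b4.K7.H85.KH.Trans

/-!
# Project CB: the final form
-/

set_option autoImplicit false
set_option linter.unusedSectionVars false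

open scoped Manifold ContDiff Topology
open Filter Set

universe u

namespace Pool.Agent.H247.CB

open Pool.Agent.H718R2.G Pool.Agent.K7.H85.KHS
open Pool.Agent.K7.H85.KH (DE DN qform rep_form diff_md)

variable {n : ℕ} {N : Type u} [TopologicalSpace N] [ChartedSpace (V n) N]

/-- The derivative at `x` of the map `f`, as a linear map, in the preferred chart at `x`; if
`f x = x` this is the derivative on the tangent space at `x`. -/
noncomputable def lin (f : N → N) (x : N) : V n →L[ℝ] V n :=
  fderiv ℝ (fun w => chartAt (V n) x (f ((chartAt (V n) x).symm w))) (chartAt (V n) x x)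

/-- The chain recurrent set of `F` is hyperbolic up to the set `E`: `E` is a closed totally
disconnected invariant set of periodic points, the return derivative at each point of `E` has at most
one eigenvalue of modulus one (counted with multiplicity), the set `Λ` of the other chain recurrent
points is closed, and some continuous quadratic form (of any signature) on the tangent spaces
increases strictly under `DF` at the points of `Λ`. -/
structure HyperbolicUpTo {r : ℕ∞} (F : DiffM n N r) (E : Set N) : Prop where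
  closed : IsClosed E
  disconnected : IsTotallyDisconnected E
  invariant : ∀ x ∈ E, F x ∈ E
  periodic : ∀ x ∈ E, ∃ m : ℕ, 1 ≤ m ∧ F^[m] x = x ∧ AtMostOne (lin (n := n) F^[m] x)
  rest : IsClosed ({x | ChainRecurrent F Set.univ x} \ E)
  form : ∃ Q : N → V n → ℝ, IsForm Q ∧ ∀ x, ChainRecurrent F Set.univ x → x ∉ E →
    ∀ v : V n, v ≠ 0 → Q x v < Q (F x) (dN F x v)

theorem final [T2Space N] [CompactSpace N] [IsManifold (𝓡 n) ∞ N] {r : ℕ∞}
    (hr : 1 ≤ r) (F : DiffM n N r) (E : Set N) (H : HyperbolicUpTo F E) :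
    ∃ U W : Set (DiffM n N r), IsOpen[strongTop n N r] U ∧ F ∈ U ∧ IsOpen[strongTop n N r] W ∧
      W ⊆ U ∧ (∀ U' ⊆ U, IsOpen[strongTop n N r] U' → U'.Nonempty → (U' ∩ W).Nonempty) ∧
      ∀ G ∈ W, AxiomA G := by
  have : SecondCountableTopology N := ChartedSpace.secondCountable_of_sigmaCompact (V n) N
  let _ : MetricSpace N := TopologicalSpace.metrizableSpaceMetric N
  obtain ⟨d, e, he, -, hinj'⟩ := exists_embedding_euclidean_of_compact (I := 𝓡 n) (M := N)
  have hinj : ∀ x, Function.Injective (DE n e x) := fun x => hinj' x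
  have he1 : ContMDiff (𝓡 n) (𝓡 d) 1 e := he.of_le (by exact_mod_cast le_top)
  obtain ⟨Q, hQ, hI⟩ := H.form
  obtain ⟨m, e₀, B₀, he₀, hB₀, hq⟩ := (form_iff Q).1 hQ
  obtain ⟨B, hB, hBe⟩ := rep_form he1 hinj he₀ hB₀
  have hq2 : ∀ x v, qform e B x v = Q x v := fun x v => (hBe x v v).trans (hq x v).symm
  obtain ⟨U, W, h1, h2, h3, h4, h5, h6⟩ := Main.main_metric
    (Pool.Agent.H484.CB.LOC.main Pool.Agent.H407.CB.LA.main Pool.Agent.H457.CB.CN.main)
    Pool.Agent.H189.CB.main (Pool.Agent.H984.CB.SEP.main Top.usc) Pool.Agent.H105.CBIT.main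
    Top.usc Pool.Agent.H747.CBPI.main (Pool.Agent.H353.CB.main Pool.Agent.H179.CB.QF.main)
    Pool.Agent.Y504.CO.DicF.hCI Pool.Agent.Y504.CO.DicF.hNB Pool.Agent.Y504.CO.DicF.hHD
    hr F he hinj hB H.closed H.disconnected H.invariant H.rest
    (fun x hx v hv => by
      rw [hq2, hq2]
      have h1 := hI x hx.1 hx.2 v hv
      rw [dN_eq (diff_md hr F x)] at h1
      exact h1)
    (fun x hx => by
      obtain ⟨m, hm, hxm, hA⟩ := H.periodic x hx
      exact ⟨m, hm, hxm, chartAt (V n) x, IsManifold.chart_mem_maximalAtlas (I := 𝓡 n) (n := ∞) x,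
        mem_chart_source (V n) x, hA⟩)
  exact ⟨U, W, h1, h2, h3, h4, h5, fun G hG => axiomA_of hr (h6 G hG)⟩

end Pool.Agent.H247.CB
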