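import Pool.Agent.H247.CB.Top
import Pool.Agent.H247.CB.Dif
import Pool.Graph.R_pool_sql_team_seeded_35f281b4.K7.H85.KH.Main

/-!
# Project CB: the parts put together
-/

set_option autoImplicit false
set_option linter.unusedSectionVars false

open scoped Manifold ContDiff Topology
open Filter Set Metric

universe u

namespace Pool.Agent.H247.CB.Main

open Pool.Agent.H718R2.G Pool.Agent.TH80.OMS Pool.Agent.Y504.CO Pool.Agent.H247.CB
open Pool.Agent.R774.OS Pool.Agent.K7.H85.KH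

/-- the iterate of a homeomorphism -/
def hIter {X : Type u} [TopologicalSpace X] (F : X ≃ₜ X) (m : ℕ) : X ≃ₜ X where
  toFun := F^[m]
  invFun := F.symm^[m]
  left_inv := Function.LeftInverse.iterate F.left_inv m
  right_inv := Function.LeftInverse.iterate F.right_inv m
  continuous_toFun := F.continuous.iterate m
  continuous_invFun := F.symm.continuous.iterate m

section

variable {n : ℕ} {N : Type u} [MetricSpace N] [CompactSpace N]
  [ChartedSpace (V n) N] [IsManifold (𝓡 n) ∞ N]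

/-- The isolated pieces of the exceptional set. -/
theorem piece (hLOC : S_LOC.{u}) (hZD : S_ZD.{u}) (hSEP : S_SEP.{u}) (hIT : S_IT.{u})
    (hCI : S_CI.{u}) {r : ℕ∞} (hr : 1 ≤ r) (F : DiffM n N r) {E : Set N} (hE : IsClosed E)
    (hEt : IsTotallyDisconnected E) (hEF : ∀ x ∈ E, F x ∈ E) (hEC : E ⊆ CR (F : N → N))
    (hΛ : IsClosed (CR (F : N → N) \ E)) (hper : ∀ x ∈ E, ∃ m : ℕ, 1 ≤ m ∧ F^[m] x = x) {p : N}
    (hpE : p ∈ E) {m : ℕ} (hm : 1 ≤ m) (hpm : F^[m] p = p)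
    (hψ : ∃ ψ ∈ IsManifold.maximalAtlas (𝓡 n) ∞ N, p ∈ ψ.source ∧
      AtMostOne (fderiv ℝ (fun v => ψ (F^[m] (ψ.symm v))) (ψ p))) :
    ∃ (O' : Set N) (U : Set (DiffM n N r)), IsOpen O' ∧ p ∈ O' ∧ IsOpen[strongTop n N r] U ∧
      F ∈ U ∧ ∀ G ∈ U, ∀ z ∈ CR (G : N → N) ∩ O', G^[2 * m] z = z := by
  obtain ⟨O, c, U₁, hO, hpO, hc, hU₁, hFU₁, h1⟩ := hLOC n N r hr F p m hm hpm hψ
  have hit : ∀ x ∈ E, ∀ k : ℕ, F^[k] x ∈ E := by
    intro x hx k
    induction k with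
    | zero => exact hx
    | succ k ih => rw [Function.iterate_succ_apply']; exact hEF _ ih
  obtain ⟨W, hWE, hWc, hWc', hpW, hWinv⟩ := hZD N (hIter F.toHomeomorph m) E hE hEt
    (fun x hx => hit x hx m) (fun x hx => by
      obtain ⟨m', hm', hx'⟩ := hper x hx
      refine ⟨m', hm', ?_⟩
      show (F^[m])^[m'] x = x
      rw [← Function.iterate_mul, mul_comm, Function.iterate_mul]
      exact Function.iterate_fixed hx' m) p hpE O hO (fun i => by
      show (F^[m])^[i] p ∈ O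
      rw [Function.iterate_fixed hpm i]
      exact hpO)
  have hCinv : ∀ x ∈ CR (F : N → N), ∀ k : ℕ, F^[k] x ∈ CR (F : N → N) := by
    intro x hx k
    induction k with
    | zero => exact hx
    | succ k ih => rw [Function.iterate_succ_apply']; exact cr_fwd F.continuous ih
  have hWC : W ⊆ CR (F : N → N) := fun x hx => hEC (hWE hx).1
  have hCW : IsClosed (CR (F : N → N) \ W) := by
    have e : CR (F : N → N) \ W = (CR (F : N → N) \ E) ∪ (E \ W) := by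
      ext x
      constructor
      · rintro ⟨h2, h3⟩
        by_cases hx : x ∈ E
        · exact Or.inr ⟨hx, h3⟩
        · exact Or.inl ⟨h2, hx⟩
      · rintro (⟨h2, h3⟩ | ⟨h2, h3⟩)
        · exact ⟨h2, fun hx => h3 (hWE hx).1⟩
        · exact ⟨hEC h2, h3⟩
    rw [e]
    exact hΛ.union hWc'
  obtain ⟨O', hO', hWO', hO'O, ε, hε, h2⟩ := hSEP N F.toHomeomorph m hm W hWC hWc hCW
    (fun x hx => (hWinv x hx).1) (fun x hx => by
      refine ⟨hCinv x hx.1 m, fun hcon => hx.2 ?_⟩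
      have h3 := (hWinv _ hcon).2
      have h4 : (hIter F.toHomeomorph m).symm (F^[m] x) = x :=
        (hIter F.toHomeomorph m).symm_apply_apply x
      have h5 : (hIter F.toHomeomorph m).symm (F.toHomeomorph^[m] x) ∈ W := h3
      exact (show (hIter F.toHomeomorph m).symm (F.toHomeomorph^[m] x) = x from h4) ▸ h5)
    O hO (fun x hx => (hWE hx).2)
  obtain ⟨U₂, hU₂, hFU₂, h3⟩ := Dif.close hCI hr F hε
  refine ⟨O', U₁ ∩ U₂, hO', hWO' hpW, @IsOpen.inter _ (strongTop n N r) _ _ hU₁ hU₂,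
    ⟨hFU₁, hFU₂⟩, fun G hG z hz => ?_⟩
  obtain ⟨h4, h5, h6⟩ := h2 G.toHomeomorph (h3 G hG.2)
  have hKinv : ∀ x ∈ CR (G : N → N) ∩ O', G^[m] x ∈ CR (G : N → N) ∩ O' ∧
      G.symm^[m] x ∈ CR (G : N → N) ∩ O' := h6
  have h7 := h1 G hG.1 (CR (G : N → N) ∩ O') (fun x hx => hO'O hx.2) hKinv
  have h8 : ∀ x ∈ CR (G : N → N) ∩ O', G^[2 * m] x ∈ CR (G : N → N) ∩ O' := by
    intro x hx
    rw [two_mul, Function.iterate_add_apply]
    exact (hKinv _ (hKinv x hx).1).1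
  have h9 := hIT N (G : N → N) G.continuous (2 * m) (by omega) (CR (G : N → N) ∩ O')
    inter_subset_left h4 (by
      have e : CR (G : N → N) \ (CR (G : N → N) ∩ O') = CR (G : N → N) \ O' := by
        ext x
        simp only [Set.mem_sdiff, mem_inter_iff]
        tauto
      rw [e]
      exact h5) h8 z hz
  exact Top.mono h4 (hc.mono fun x hx => hO'O hx.2) h8 (fun x hx y hy => (h7 x hx y hy).1)
    (fun x hx y hy => (h7 x hx y hy).2) hz h9

theorem main_form (hLOC : S_LOC.{u}) (hZD : S_ZD.{u}) (hSEP : S_SEP.{u}) (hIT : S_IT.{u})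
    (hUSC : S_USC.{u}) (hPI : S_PI.{u}) (hFM : S_FM.{u})
    (hCI : S_CI.{u}) (hNB : S_NB.{u}) (hHD : S_HD.{u}) {r : ℕ∞} (hr : 1 ≤ r) (F : DiffM n N r)
    {d : ℕ} {e : N → V d} (he : ContMDiff (𝓡 n) (𝓡 d) ∞ e)
    (hinj : ∀ x, Function.Injective (DE n e x)) {B : N → V d →L[ℝ] V d →L[ℝ] ℝ}
    (hB : Continuous B) {E : Set N} (hE : IsClosed E)
    (hEt : IsTotallyDisconnected E) (hEF : ∀ x ∈ E, F x ∈ E)
    (hΛ : IsClosed (CR (F : N → N) \ E))
    (hincr : ∀ x ∈ CR (F : N → N) \ E, ∀ v : V n, v ≠ 0 →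
      qform e B x v < qform e B (F x) (DN n F x v))
    (hper : ∀ x ∈ E, ∃ m : ℕ, 1 ≤ m ∧ F^[m] x = x ∧ ∃ ψ ∈ IsManifold.maximalAtlas (𝓡 n) ∞ N,
      x ∈ ψ.source ∧ AtMostOne (fderiv ℝ (fun v => ψ (F^[m] (ψ.symm v))) (ψ x))) :
    ∃ U W : Set (DiffM n N r), IsOpen[strongTop n N r] U ∧ F ∈ U ∧ IsOpen[strongTop n N r] W ∧
      W ⊆ U ∧ (∀ U' ⊆ U, IsOpen[strongTop n N r] U' → U'.Nonempty → (U' ∩ W).Nonempty) ∧
      ∀ G ∈ W, ∃ B' : N → V d →L[ℝ] V d →L[ℝ] ℝ, Continuous B' ∧ ∀ x ∈ CR (G : N → N),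
        ∀ v : V n, v ≠ 0 → qform e B' x v < qform e B' (G x) (DN n G x v) := by
  classical
  have hEC : E ⊆ CR (F : N → N) := by
    intro x hx
    obtain ⟨m, hm, hxm, -⟩ := hper x hx
    exact omega_CR F.continuous (per_mem_omega hm hxm)
  have hper' : ∀ x ∈ E, ∃ m : ℕ, 1 ≤ m ∧ F^[m] x = x := fun x hx => by
    obtain ⟨m, hm, hxm, -⟩ := hper x hx
    exact ⟨m, hm, hxm⟩
  have hEb : ∀ x ∈ E, F.symm x ∈ E := by
    intro x hx
    obtain ⟨m, hm, hxm⟩ := hper' x hx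
    obtain ⟨m', rfl⟩ : ∃ m', m = m' + 1 := ⟨m - 1, by omega⟩
    have h1 : F.symm x = F^[m'] x := by
      conv_lhs => rw [← hxm]
      rw [Function.iterate_succ_apply']
      exact F.symm_apply_apply _
    rw [h1]
    clear hxm h1 hm
    induction m' with
    | zero => exact hx
    | succ k ih => rw [Function.iterate_succ_apply']; exact hEF _ ih
  -- the hyperbolic part
  obtain ⟨O, U₁, hO, hΛO, hU₁, hFU₁, h1⟩ := hPI n N r hr F d e he B hB _ hΛ hincr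
  obtain ⟨O₁, hO₁, hΛO₁, hO₁O, ε₁, hε₁, h2⟩ := hSEP N F.toHomeomorph 1 le_rfl
    (CR (F : N → N) \ E) sdiff_subset hΛ (by
      have e1 : CR (F : N → N) \ (CR (F : N → N) \ E) = E := by
        ext x
        simp only [Set.mem_sdiff]
        constructor
        · rintro ⟨a1, a2⟩
          by_contra hx
          exact a2 ⟨a1, hx⟩
        · intro hx
          exact ⟨hEC hx, fun a => a.2 hx⟩
      have e2 : IsClosed (CR (F : N → N) \ (CR (F : N → N) \ E)) := by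
        rw [e1]
        exact hE
      exact e2)
    (fun x hx => by
      refine ⟨cr_fwd F.continuous hx.1, fun hcon => hx.2 ?_⟩
      have h3 := hEb _ hcon
      have h4 : F.symm (F x) = x := F.symm_apply_apply x
      exact (show F.symm (F x) = x from h4) ▸ h3)
    (fun x hx => by
      have hxE : x ∈ E := by
        by_contra h
        exact hx.2 ⟨hx.1, h⟩
      exact ⟨cr_fwd F.continuous hx.1, fun hcon => hcon.2 (hEF x hxE)⟩) O hO hΛO
  -- the exceptional part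
  have hp : ∀ x : N, ∃ (m : ℕ) (O' : Set N) (U : Set (DiffM n N r)), 1 ≤ m ∧ IsOpen O' ∧
      (x ∈ E → x ∈ O') ∧ IsOpen[strongTop n N r] U ∧ F ∈ U ∧
      (x ∈ E → ∀ G ∈ U, ∀ z ∈ CR (G : N → N) ∩ O', G^[2 * m] z = z) := by
    intro x
    by_cases hx : x ∈ E
    · obtain ⟨m, hm, hxm, hψ⟩ := hper x hx
      obtain ⟨O', U, a1, a2, a3, a4, a5⟩ := piece hLOC hZD hSEP hIT hCI hr F hE hEt hEF hEC hΛ
        hper' hx hm hxm hψ
      exact ⟨m, O', U, hm, a1, fun _ => a2, a3, a4, fun _ => a5⟩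
    · exact ⟨1, univ, univ, le_rfl, isOpen_univ, fun h => absurd h hx,
        @isOpen_univ _ (strongTop n N r), mem_univ _, fun h => absurd h hx⟩
  choose m O' U' hm1 hO' hxO' hU' hFU' hfix using hp
  obtain ⟨t, htE, ht⟩ := hE.isCompact.elim_nhds_subcover O' fun x hx =>
    (hO' x).mem_nhds (hxO' x hx)
  obtain ⟨ε₂, hε₂, h3⟩ := hUSC N F.toHomeomorph (O₁ ∪ ⋃ x ∈ t, O' x)
    (hO₁.union (isOpen_biUnion fun x _ => hO' x)) (by
      intro x hx
      by_cases hxE : x ∈ E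
      · exact Or.inr (ht hxE)
      · exact Or.inl (hΛO₁ ⟨hx, hxE⟩))
  obtain ⟨U₂, hU₂, hFU₂, h4⟩ := Dif.close hCI hr F (lt_min hε₁ hε₂)
  set q : ℕ := t.prod fun x => 2 * m x with hq
  have hq1 : 1 ≤ q := by
    rw [hq]
    exact Nat.one_le_iff_ne_zero.2 (Finset.prod_ne_zero_iff.2 fun x _ => by
      have := hm1 x
      omega)
  set U : Set (DiffM n N r) := (U₁ ∩ U₂) ∩ ⋂ x ∈ t, U' x with hUdef
  have hUo : IsOpen[strongTop n N r] U := @IsOpen.inter _ (strongTop n N r) _ _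
    (@IsOpen.inter _ (strongTop n N r) _ _ hU₁ hU₂)
    (@isOpen_biInter_finset _ _ (strongTop n N r) t U' fun x _ => hU' x)
  refine ⟨U, U ∩ {G | HypK n q G}, hUo, ⟨⟨hFU₁, hFU₂⟩, mem_iInter₂.2 fun x _ => hFU' x⟩,
    @IsOpen.inter _ (strongTop n N r) _ _ hUo (KSG.isOpen_hypK hCI hNB hr q), inter_subset_left,
    ?_, ?_⟩
  · rintro V' hV'U hV' ⟨G₀, hG₀⟩
    obtain ⟨G, hG, hGK⟩ := hHD n N r hr q hq1 G₀ V' hV' hG₀
    exact ⟨G, hG, hV'U hG, hGK⟩
  rintro G ⟨⟨⟨hG1, hG2⟩, hG3⟩, hGK⟩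
  have hclose := h4 G hG2
  obtain ⟨k1, k2, k3⟩ := h2 G.toHomeomorph fun x => (hclose x).trans_le (min_le_left _ _)
  have k4 := h3 G.toHomeomorph fun x => (hclose x).trans_le (min_le_right _ _)
  have k1' : IsClosed (CR (G : N → N) ∩ O₁) := k1
  have k3' : ∀ x ∈ CR (G : N → N) ∩ O₁, G x ∈ CR (G : N → N) ∩ O₁ ∧
      G.symm x ∈ CR (G : N → N) ∩ O₁ := k3
  have k4' : CR (G : N → N) ⊆ O₁ ∪ ⋃ x ∈ t, O' x := k4
  have hPfix : ∀ z ∈ CR (G : N → N) \ O₁, G^[q] z = z := by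
    rintro z ⟨hz1, hz2⟩
    rcases k4' hz1 with h | h
    · exact absurd h hz2
    · obtain ⟨x, hxt, hzx⟩ := mem_iUnion₂.1 h
      have h5 := hfix x (htE x hxt) G (mem_iInter₂.1 hG3 x hxt) z ⟨hz1, hzx⟩
      obtain ⟨l, hl⟩ : 2 * m x ∣ q := Finset.dvd_prod_of_mem (fun x => 2 * m x) hxt
      rw [hl, Function.iterate_mul]
      exact Function.iterate_fixed h5 l
  obtain ⟨B', hB', hinc⟩ := hFM n N r hr G d e he hinj B hB (CR (G : N → N) ∩ O₁) k1'
    (fun x hx => (k3' x hx).1) (fun x hx v hv => h1 G hG1 x (hO₁O hx.2) v hv)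
    (CR (G : N → N) \ O₁) ((Dif.finite_fix hr G hGK).subset fun z hz => hPfix z hz)
    (by
      rw [Set.disjoint_left]
      rintro x ⟨-, hx⟩ ⟨-, hx'⟩
      exact hx' hx)
    (by
      rintro x ⟨hx1, hx2⟩
      refine ⟨cr_fwd G.continuous hx1, fun hcon => hx2 ?_⟩
      have h5 := (k3' (G x) ⟨cr_fwd G.continuous hx1, hcon⟩).2
      rw [G.symm_apply_apply] at h5
      exact h5.2)
    (by
      intro x hx
      have h5 := hPfix x hx
      exact ⟨⟨q, hq1, h5⟩, Dif.hypAt_of_hypK hr G hq1 hGK h5⟩)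
  have hT : ∀ x ∈ CR (G : N → N), ∀ v : V n, v ≠ 0 →
      qform e B' x v < qform e B' (G x) (DN n G x v) := by
    intro x hx v hv
    refine hinc x ?_ v hv
    by_cases hx' : x ∈ O₁
    · exact Or.inl ⟨hx, hx'⟩
    · exact Or.inr ⟨hx, hx'⟩
  exact ⟨B', hB', hT⟩

theorem main_metric (hLOC : S_LOC.{u}) (hZD : S_ZD.{u}) (hSEP : S_SEP.{u}) (hIT : S_IT.{u})
    (hUSC : S_USC.{u}) (hPI : S_PI.{u}) (hFM : S_FM.{u})
    (hCI : S_CI.{u}) (hNB : S_NB.{u}) (hHD : S_HD.{u}) {r : ℕ∞} (hr : 1 ≤ r) (F : DiffM n N r)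
    {d : ℕ} {e : N → V d} (he : ContMDiff (𝓡 n) (𝓡 d) ∞ e)
    (hinj : ∀ x, Function.Injective (DE n e x)) {B : N → V d →L[ℝ] V d →L[ℝ] ℝ}
    (hB : Continuous B) {E : Set N} (hE : IsClosed E)
    (hEt : IsTotallyDisconnected E) (hEF : ∀ x ∈ E, F x ∈ E)
    (hΛ : IsClosed (CR (F : N → N) \ E))
    (hincr : ∀ x ∈ CR (F : N → N) \ E, ∀ v : V n, v ≠ 0 →
      qform e B x v < qform e B (F x) (DN n F x v))
    (hper : ∀ x ∈ E, ∃ m : ℕ, 1 ≤ m ∧ F^[m] x = x ∧ ∃ ψ ∈ IsManifold.maximalAtlas (𝓡 n) ∞ N,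
      x ∈ ψ.source ∧ AtMostOne (fderiv ℝ (fun v => ψ (F^[m] (ψ.symm v))) (ψ x))) :
    ∃ U W : Set (DiffM n N r), IsOpen[strongTop n N r] U ∧ F ∈ U ∧ IsOpen[strongTop n N r] W ∧
      W ⊆ U ∧ (∀ U' ⊆ U, IsOpen[strongTop n N r] U' → U'.Nonempty → (U' ∩ W).Nonempty) ∧
      ∀ G ∈ W, Pool.Agent.K7.H85.KH.AxiomANoCycles G := by
  obtain ⟨U, W, a1, a2, a3, a4, a5, a6⟩ := main_form hLOC hZD hSEP hIT hUSC hPI hFM hCI hNB hHD hr F he hinj hB hE hEt hEF hΛ hincr hper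
  refine ⟨U, W, a1, a2, a3, a4, a5, fun G hG => ?_⟩
  obtain ⟨B', hB', hT⟩ := a6 G hG
  have he1 : ContMDiff (𝓡 n) (𝓡 d) 1 e := he.of_le (by exact_mod_cast le_top)
  obtain ⟨m1, m2⟩ := cr_eq hr he1 hB' hT
  have D : Dat n G (NW (G : N → N)) e B' :=
    { he := he
      inj := hinj
      hB := hB'
      cl := by rw [← m1]; exact isClosed_CR G.continuous
      fwd := by rw [← m1]; exact fun x hx => cr_fwd G.continuous hx
      bwd := by
        rw [← m1]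
        exact fun x hx => cr_bwd G.continuous G.symm.continuous
          (fun y => G.symm_apply_apply y) hx
      incr := by rw [← m1]; exact hT
      per := by
        rintro x ⟨k, hk, hx⟩ W hW
        exact ⟨k, hk, x, ⟨x, mem_of_mem_nhds hW, hx⟩, mem_of_mem_nhds hW⟩
      dense := m2 }
  refine ⟨hyperbolic hr D, m2, fun x hx => ?_⟩
  rw [← m1]
  exact hx

end

end Pool.Agent.H247.CB.Main
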