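import Pool.Graph.R_seed8.Y504.CO.Stm7
import Pool.Graph.R_seed8.R774.OS2
import Pool.Graph.R_pool_sql_team_seeded_35f281b4.K7.H85.KH.Defs

/-!
# Density of hyperbolicity near diffeomorphisms with at most one neutral eigenvalue at the
nonhyperbolic chain recurrent points: statements of the parts
-/

set_option autoImplicit false

open scoped Manifold ContDiff Topology
open Filter Set Metric Polynomial

universe u

namespace Pool.Agent.H247.CB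

open Pool.Agent.H718R2.G Pool.Agent.TH80.OMS Pool.Agent.Y504.CO
open Pool.Agent.K7.H85.KH (DN DE qform)

/-- Counted with multiplicity, `A` has at most one (complex) eigenvalue of modulus one: the
characteristic polynomial has no divisor `(X - μ₁)(X - μ₂)` with `|μ₁| = |μ₂| = 1`. -/
def AtMostOne {n : ℕ} (A : V n →L[ℝ] V n) : Prop :=
  ∀ μ₁ μ₂ : ℂ, ‖μ₁‖ = 1 → ‖μ₂‖ = 1 →
    ¬ ((X - C μ₁) * (X - C μ₂) ∣
      (LinearMap.charpoly (A : V n →ₗ[ℝ] V n)).map (algebraMap ℝ ℂ))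

/-- `A` has the eigenvalue `lam = ±1`, with eigenvector `e` and dual eigenvector `ℓ`, and is
hyperbolic on the kernel of `ℓ`. -/
structure Cen {n : ℕ} (A : V n →L[ℝ] V n) (lam : ℝ) (e : V n) (ℓ : V n →L[ℝ] ℝ) : Prop where
  one : lam = 1 ∨ lam = -1
  eig : A e = lam • e
  dual : ∀ v, ℓ (A v) = lam * ℓ v
  nrm : ℓ e = 1
  hyp : ∀ v : ℤ → V n, (∃ C : ℝ, ∀ i, ‖v i‖ ≤ C) → (∀ i, v (i + 1) = A (v i)) →
    (∀ i, ℓ (v i) = 0) → ∀ i, v i = 0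

/-- LA: linear algebra. -/
def S_LA : Prop :=
  ∀ (n : ℕ) (A : V n →L[ℝ] V n), Function.Injective A → AtMostOne A →
    NoBdd (fun _ => A) ∨ ∃ (lam : ℝ) (e : V n) (ℓ : V n →L[ℝ] ℝ), Cen A lam e ℓ

/-- LB1: bounded approximate orbits of a linear map with one neutral eigenvalue. -/
def S_CN : Prop :=
  ∀ (n : ℕ) (A : V n →L[ℝ] V n),
    (NoBdd (fun _ => A) → ∃ η : ℝ, 0 < η ∧ ∀ δ : ℤ → V n, (∃ C : ℝ, ∀ i, ‖δ i‖ ≤ C) →
      (∀ i, ‖δ (i + 1) - A (δ i)‖ ≤ η * ‖δ i‖) → ∀ i, δ i = 0) ∧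
    ∀ (lam : ℝ) (e : V n) (ℓ : V n →L[ℝ] ℝ), Cen A lam e ℓ → ∃ η : ℝ, 0 < η ∧
      ∀ δ : ℤ → V n, (∃ C : ℝ, ∀ i, ‖δ i‖ ≤ C) →
      (∀ i, ‖δ (i + 1) - A (δ i)‖ ≤ η * ‖δ i‖) → ∀ i, (ℓ (δ i) = 0 → δ i = 0) ∧
        (ℓ (δ i) ≠ 0 → 0 < lam * (ℓ (δ i) * ℓ (δ (i + 1))))

/-- LOC: near a periodic point with at most one neutral eigenvalue, the invariant sets of nearby
maps are ordered by a coordinate, and the order is preserved. -/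
def S_LOC : Prop :=
  ∀ (n : ℕ) (N : Type u) [TopologicalSpace N] [T2Space N] [CompactSpace N] [ChartedSpace (V n) N]
    [IsManifold (𝓡 n) ∞ N] (r : ℕ∞), 1 ≤ r → ∀ (F : DiffM n N r) (p : N) (m : ℕ), 1 ≤ m →
    F^[m] p = p → (∃ ψ ∈ IsManifold.maximalAtlas (𝓡 n) ∞ N, p ∈ ψ.source ∧
      AtMostOne (fderiv ℝ (fun v => ψ (F^[m] (ψ.symm v))) (ψ p))) →
    ∃ (O : Set N) (c : N → ℝ) (U : Set (DiffM n N r)), IsOpen O ∧ p ∈ O ∧ ContinuousOn c O ∧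
      IsOpen[strongTop n N r] U ∧ F ∈ U ∧ ∀ G ∈ U, ∀ K ⊆ O,
      (∀ x ∈ K, G^[m] x ∈ K ∧ G.symm^[m] x ∈ K) → ∀ x ∈ K, ∀ y ∈ K,
        (c x = c y → x = y) ∧ (c x < c y → c (G^[2 * m] x) < c (G^[2 * m] y))

/-- IT: chain recurrence for an iterate, in an isolated part of the chain recurrent set. -/
def S_IT : Prop :=
  ∀ (X : Type u) [MetricSpace X] [CompactSpace X] (G : X → X), Continuous G → ∀ q : ℕ, 1 ≤ q →
    ∀ K : Set X, K ⊆ Pool.Agent.R774.OS.CR G → IsClosed K →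
    IsClosed (Pool.Agent.R774.OS.CR G \ K) → (∀ x ∈ K, G^[q] x ∈ K) → ∀ z ∈ K,
    Pool.Agent.R774.ClStmt.ChainRecOn (G^[q]) K z

/-- QF: quadratic forms which increase under a hyperbolic matrix. -/
def S_QF : Prop :=
  ∀ (n : ℕ) (A : V n →L[ℝ] V n), Function.Injective A → NoBdd (fun _ => A) →
    ∃ q : V n →L[ℝ] V n →L[ℝ] ℝ, ∀ v, v ≠ 0 → q v v < q (A v) (A v)

/-- FM: a form which increases along a set and along finitely many hyperbolic periodic orbits. -/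
def S_FM : Prop :=
  ∀ (n : ℕ) (N : Type u) [TopologicalSpace N] [T2Space N] [CompactSpace N] [ChartedSpace (V n) N]
    [IsManifold (𝓡 n) ∞ N] (r : ℕ∞), 1 ≤ r → ∀ (G : DiffM n N r) (d : ℕ) (e : N → V d),
    ContMDiff (𝓡 n) (𝓡 d) ∞ e → (∀ x, Function.Injective (DE n e x)) →
    ∀ B : N → V d →L[ℝ] V d →L[ℝ] ℝ, Continuous B → ∀ K : Set N, IsClosed K →
    (∀ x ∈ K, G x ∈ K) →
    (∀ x ∈ K, ∀ v : V n, v ≠ 0 → qform e B x v < qform e B (G x) (DN n G x v)) →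
    ∀ P : Set N, P.Finite → Disjoint K P → (∀ x ∈ P, G x ∈ P) →
    (∀ x ∈ P, x ∈ Per G ∧ HypAt n G x) →
    ∃ B' : N → V d →L[ℝ] V d →L[ℝ] ℝ, Continuous B' ∧ ∀ x ∈ K ∪ P, ∀ v : V n, v ≠ 0 →
      qform e B' x v < qform e B' (G x) (DN n G x v)

/-- PI: the increase of a form persists. -/
def S_PI : Prop :=
  ∀ (n : ℕ) (N : Type u) [TopologicalSpace N] [T2Space N] [CompactSpace N] [ChartedSpace (V n) N]
    [IsManifold (𝓡 n) ∞ N] (r : ℕ∞), 1 ≤ r → ∀ (F : DiffM n N r) (d : ℕ) (e : N → V d),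
    ContMDiff (𝓡 n) (𝓡 d) ∞ e →
    ∀ B : N → V d →L[ℝ] V d →L[ℝ] ℝ, Continuous B → ∀ K : Set N, IsClosed K →
    (∀ x ∈ K, ∀ v : V n, v ≠ 0 → qform e B x v < qform e B (F x) (DN n F x v)) →
    ∃ (O : Set N) (U : Set (DiffM n N r)), IsOpen O ∧ K ⊆ O ∧ IsOpen[strongTop n N r] U ∧ F ∈ U ∧
      ∀ G ∈ U, ∀ x ∈ O, ∀ v : V n, v ≠ 0 → qform e B x v < qform e B (G x) (DN n G x v)

/-- ZD: invariant clopen neighbourhoods of orbits of a pointwise periodic homeomorphism of a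
totally disconnected compact set. -/
def S_ZD : Prop :=
  ∀ (X : Type u) [MetricSpace X] [CompactSpace X] (F : X ≃ₜ X) (E : Set X), IsClosed E →
    IsTotallyDisconnected E → (∀ x ∈ E, F x ∈ E) → (∀ x ∈ E, ∃ m : ℕ, 1 ≤ m ∧ F^[m] x = x) →
    ∀ p ∈ E, ∀ O : Set X, IsOpen O → (∀ i : ℕ, F^[i] p ∈ O) →
    ∃ W : Set X, W ⊆ E ∩ O ∧ IsClosed W ∧ IsClosed (E \ W) ∧ p ∈ W ∧ ∀ x ∈ W, F x ∈ W ∧ F.symm x ∈ W

/-- USC: upper semicontinuity of the chain recurrent set. -/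
def S_USC : Prop :=
  ∀ (X : Type u) [MetricSpace X] [CompactSpace X] (F : X ≃ₜ X) (O : Set X), IsOpen O →
    Pool.Agent.R774.OS.CR F ⊆ O → ∃ ε : ℝ, 0 < ε ∧ ∀ G : X ≃ₜ X, (∀ x, dist (F x) (G x) < ε) →
      Pool.Agent.R774.OS.CR G ⊆ O

/-- SEP: isolated invariant parts of the chain recurrent set persist. -/
def S_SEP : Prop :=
  ∀ (X : Type u) [MetricSpace X] [CompactSpace X] (F : X ≃ₜ X) (m : ℕ), 1 ≤ m → ∀ W : Set X,
    W ⊆ Pool.Agent.R774.OS.CR F → IsClosed W → IsClosed (Pool.Agent.R774.OS.CR F \ W) →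
    (∀ x ∈ W, F^[m] x ∈ W) →
    (∀ x ∈ Pool.Agent.R774.OS.CR F \ W, F^[m] x ∈ Pool.Agent.R774.OS.CR F \ W) →
    ∀ O : Set X, IsOpen O → W ⊆ O → ∃ O' : Set X, IsOpen O' ∧ W ⊆ O' ∧ O' ⊆ O ∧
    ∃ ε : ℝ, 0 < ε ∧ ∀ G : X ≃ₜ X, (∀ x, dist (F x) (G x) < ε) →
      IsClosed (Pool.Agent.R774.OS.CR G ∩ O') ∧ IsClosed (Pool.Agent.R774.OS.CR G \ O') ∧
      ∀ x ∈ Pool.Agent.R774.OS.CR G ∩ O', G^[m] x ∈ Pool.Agent.R774.OS.CR G ∩ O' ∧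
        G.symm^[m] x ∈ Pool.Agent.R774.OS.CR G ∩ O'

end Pool.Agent.H247.CB
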