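import Pool.Agent.H247.CB.Stm
import Pool.Graph.R_seed8.H637R2.TD.S.USC

/-!
# Project CB: topological dynamics
-/

set_option autoImplicit false
set_option linter.unusedSectionVars false

open scoped Manifold ContDiff Topology
open Filter Set Metric

universe u

namespace Pool.Agent.H247.CB.Top

open Pool.Agent.R774.OS Pool.Agent.R774.ClStmt Pool.Agent.H247.CB

section

variable {X : Type u} [MetricSpace X] [CompactSpace X]

/-- Chain recurrent points of order preserving maps are fixed: one half. -/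
theorem mono_aux {T : X → X} {K : Set X} (hK : IsClosed K) {c : X → ℝ} (hc : ContinuousOn c K)
    (hT : ∀ x ∈ K, T x ∈ K) (hm : ∀ x ∈ K, ∀ y ∈ K, c x < c y → c (T x) < c (T y)) {z : X}
    (hz : ChainRecOn T K z) (hlt : c z < c (T z)) : False := by
  have hKc : IsCompact K := hK.isCompact
  have hu : UniformContinuousOn c K := hKc.uniformContinuousOn_of_continuous hc
  obtain ⟨δ, hδ, h⟩ := Metric.uniformContinuousOn_iff.1 hu ((c (T z) - c z) / 2) (by linarith)
  obtain ⟨m, x, hm1, h0, h1, h2, h3⟩ := hz {q | dist q.1 q.2 < δ}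
    (isOpen_lt continuous_dist continuous_const) (fun x => by simpa using hδ)
  have hzK : z ∈ K := by rw [← h0]; exact h2 0 (Nat.zero_le _)
  have key : ∀ i, i + 1 ≤ m → (c z + c (T z)) / 2 < c (x (i + 1)) := by
    intro i
    induction i with
    | zero =>
      intro hi
      have a1 := h3 0 (by omega)
      have a2 := h _ (hT _ (h2 0 (by omega))) _ (h2 (0 + 1) hi) a1
      rw [h0, Real.dist_eq, abs_lt] at a2
      linarith [a2.1, a2.2]
    | succ i ih =>
      intro hi
      have b1 := ih (by omega)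
      have b2 : c z < c (x (i + 1)) := by linarith
      have b3 := hm z hzK _ (h2 _ (by omega)) b2
      have a1 := h3 (i + 1) (by omega)
      have a2 := h _ (hT _ (h2 (i + 1) (by omega))) _ (h2 (i + 1 + 1) hi) a1
      rw [Real.dist_eq, abs_lt] at a2
      linarith [a2.1, a2.2]
  obtain ⟨i, rfl⟩ : ∃ i, m = i + 1 := ⟨m - 1, by omega⟩
  have := key i le_rfl
  rw [h1] at this
  linarith

theorem mono {T : X → X} {K : Set X} (hK : IsClosed K) {c : X → ℝ} (hc : ContinuousOn c K)
    (hT : ∀ x ∈ K, T x ∈ K) (hi : ∀ x ∈ K, ∀ y ∈ K, c x = c y → x = y)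
    (hm : ∀ x ∈ K, ∀ y ∈ K, c x < c y → c (T x) < c (T y)) {z : X} (hzK : z ∈ K)
    (hz : ChainRecOn T K z) : T z = z := by
  by_contra hne
  rcases lt_trichotomy (c z) (c (T z)) with h | h | h
  · exact mono_aux hK hc hT hm hz h
  · exact hne (hi z hzK _ (hT z hzK) h).symm
  · refine mono_aux (c := fun x => -c x) hK hc.neg hT (fun x hx y hy hxy => ?_) hz
      (neg_lt_neg h)
    exact neg_lt_neg (hm y hy x hx (neg_lt_neg_iff.1 hxy))

theorem usc : S_USC.{u} := by
  intro X _ _ F O hO hF
  have hconv : ∀ (G : X ≃ₜ X) (x : X), x ∈ CR G ↔ x ∈ Pool.Agent.H728R2.OS.ChainRec G := by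
    intro G x
    rw [mem_CR]
    constructor
    · intro h ε hε
      obtain ⟨m, Y, h1, h2, h3, h4⟩ := h ε hε
      refine ⟨m, Y, by omega, h2, ?_, fun i _ => h4 i⟩
      have := h3 0
      rw [zero_add] at this
      rw [this, h2]
    · intro h δ hδ
      obtain ⟨m, Y, h1, h2, h3, h4⟩ := h δ hδ
      exact Ch.of (by omega) h2 h3 h4
  obtain ⟨ε, hε, h⟩ := Pool.Agent.H637R2.TD.chainRec_usc F O hO
    (fun x hx => hF ((hconv F x).2 hx))
  exact ⟨ε, hε, fun G hG x hx => h G hG ((hconv G x).1 hx)⟩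

end

end Pool.Agent.H247.CB.Top
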